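import Pool.Agent.H70.RZT.S
import Pool.Agent.H76.NF.ZERN
import Pool.Agent.H31.T1.ZTRA

/-!
# RZT, row ZERTN: the equations with `a_1 = 0`
-/

set_option autoImplicit false

namespace Pool.RZT

open Polynomial NumberField IsDedekindDomain Pool.HYP Pool.TOW Pool.AVS Pool.T1 Pool.NF
  Pool.HYP.H20

namespace ZERT97

open Pool.NF.ZERN76

variable {K : Type} [Field K] [NumberField K]

theorem fkE_tau (E : Type) [Field E] [Algebra K E] {f : (𝓞 K)[X]} (hm : f.Monic)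
    (hn : f.natDegree = 3) :
    fkE K E (tau f) = ((fkE K E f).scaleRoots ((3 : E) ^ 2)).comp
      (X - C (algebraMap K E (algebraMap (𝓞 K) K (3 * f.coeff 2)))) := by
  have h1 : ((fk K f).scaleRoots ((3 : K) ^ 2)).map (algebraMap K E) =
      ((fk K f).map (algebraMap K E)).scaleRoots ((3 : E) ^ 2) := by
    have h2 : (fk K f).Monic := hm.map _
    rw [map_scaleRoots (fk K f) ((3 : K) ^ 2) (algebraMap K E) (by
      rw [h2.leadingCoeff]; simp)]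
    congr 1
    rw [map_pow, map_ofNat]
  show (fk K (tau f)).map (algebraMap K E) = _
  rw [fk_tau hm hn, Polynomial.map_comp, h1]
  simp

theorem selE_tau (hS : SQSNStmt) (E : Type) [Field E] [Algebra K E] {f : (𝓞 K)[X]}
    (hm : f.Monic) (hn : f.natDegree = 3) (h : SelK (fkE K E f)) :
    SelK (fkE K E (tau f)) := by
  have h3 : (3 : E) ≠ 0 := by
    have h4 : (3 : K) ≠ 0 := by norm_num
    have h5 := (map_ne_zero (algebraMap K E)).2 h4
    rwa [map_ofNat] at h5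
  have hmE : (fkE K E f).Monic := (hm.map _).map _
  rw [fkE_tau E hm hn, trak _ _ _ ((monic_scaleRoots_iff _).2 hmE)]
  exact (hS E (fkE K E f) 3 hmE h3).2 h

theorem tow_tau (hS : SQSNStmt) (hI : ZIRSStmt) (T : Finset (HeightOneSpectrum (𝓞 K)))
    {f : (𝓞 K)[X]} (hm : f.Monic) (hn : f.natDegree = 3) (h : TowN K T f) :
    TowN K T (tau f) := by
  intro E _ _ hE
  obtain ⟨h1, h2, h3, h4, h5, h6⟩ := hE
  refine selE_tau hS E hm hn (h E ⟨h1, h2, h3, h4, h5, fun P => ?_⟩)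
  rcases h6 P with h7 | h7
  · exact Or.inl h7
  · refine Or.inr ?_
    have hP : P.asIdeal.IsPrime := P.isPrime
    have e : (X - C (3 * f.coeff 2) : (𝓞 K)[X]) = X + C (-(3 * f.coeff 2)) := by
      rw [C_neg, sub_eq_add_neg]
    rw [tau_eq hm hn, e, md, Polynomial.map_comp, Polynomial.map_add, map_X, map_C] at h7
    have h8 := (irreducible_comp_add _ _).1 h7
    exact (hI (𝓞 K) P 9 f hm (by omega)).1 h8

end ZERT97

open Pool.NF.ZERN76 ZERT97 in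
theorem zertn (hA : ALLNStmt) (hS : SQSNStmt) (hI : ZIRSStmt) : ZERTNStmt := by
  intro K _ _ E₀ _ _ T hpos
  obtain ⟨δ, hδ, Y₀, H⟩ := hpos
  obtain ⟨c, C', hc, hC, hA'⟩ := hA K
  set n := dg K with hn
  refine ⟨δ * c / (C' ^ 2 * 11 ^ (5 * n)), by positivity, 11 * max Y₀ 1, fun Y hY => ?_⟩
  obtain ⟨Y', rfl⟩ : ∃ Y', Y = 11 * Y' := ⟨Y / 11, by ring⟩
  have hY1 : max Y₀ 1 ≤ Y' := by linarith
  have hY0 : Y₀ ≤ Y' := (le_max_left _ _).trans hY1
  have hY2 : 1 ≤ Y' := (le_max_right _ _).trans hY1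
  have hY3 : (1 : ℝ) ≤ 11 * Y' := by linarith
  obtain ⟨h1, h2, h3⟩ := H Y' hY0
  obtain ⟨-, a2, -, -, -, a6, a7⟩ := hA' Y' hY2
  obtain ⟨b1, -, -, b4, b5, -, -⟩ := hA' (11 * Y') hY3
  refine ⟨b4, ?_⟩
  set Z : Set (𝓞 K)[X] :=
    {f ∈ AllN K (11 * Y') | f.coeff 2 = 0 ∧ Irreducible (fk K f) ∧ SelK (fk K f) ∧
      SelK (fkE K E₀ f) ∧ TowN K T f} with hZ
  set G : Set (𝓞 K)[X] := {f ∈ AllN K Y' | Irreducible (fk K f) ∧ SelK (fk K f) ∧
      SelK (fkE K E₀ f) ∧ TowN K T f} with hG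
  have hZfin : Z.Finite := b1.subset fun f hf => hf.1
  have h4 : G.ncard ≤ Z.ncard * (Bx K Y').ncard := by
    rw [← Set.ncard_prod]
    refine Set.ncard_le_ncard_of_injOn (fun f : (𝓞 K)[X] => (tau f, f.coeff 2)) ?_ ?_
      (hZfin.prod a6)
    · rintro f ⟨hf, hf1, hf2, hf3, hf4⟩
      refine ⟨⟨tau_mem (by linarith) hf, cub_coeff2 _ _ _, irr_tau hf.1 hf.2.1 hf1,
        (sel_tau hS trak hf.1 hf.2.1).2 hf2, selE_tau hS E₀ hf.1 hf.2.1 hf3,
        tow_tau hS hI T hf.1 hf.2.1 hf4⟩, ?_⟩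
      have h5 := hf.2.2 1 (by norm_num)
      rw [pow_one] at h5
      exact h5
    · rintro f ⟨hf, -⟩ f' ⟨hf', -⟩ he
      obtain ⟨he1, he2⟩ := Prod.mk.injEq _ _ _ _ ▸ he
      exact tau_inj hf.1 hf.2.1 hf'.1 hf'.2.1 he1 he2
  have h5 : (G.ncard : ℝ) ≤ Z.ncard * (Bx K Y').ncard := by exact_mod_cast h4
  have hYn : (0 : ℝ) < Y' ^ n := by positivity
  have h6 : δ * (c * Y' ^ (6 * n)) ≤ Z.ncard * (C' * Y' ^ n) := by
    calc δ * (c * Y' ^ (6 * n)) ≤ δ * (AllN K Y').ncard := by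
          exact mul_le_mul_of_nonneg_left a2 hδ.le
      _ ≤ G.ncard := h3
      _ ≤ Z.ncard * (Bx K Y').ncard := h5
      _ ≤ Z.ncard * (C' * Y' ^ n) := mul_le_mul_of_nonneg_left a7 (Nat.cast_nonneg _)
  have h7 : Y' ^ (6 * n) = Y' ^ (5 * n) * Y' ^ n := by
    rw [← pow_add]
    congr 1
    ring
  have h8 : δ * c * Y' ^ (5 * n) ≤ C' * Z.ncard := by
    have h9 : (δ * c * Y' ^ (5 * n)) * Y' ^ n ≤ (C' * Z.ncard) * Y' ^ n := by
      calc (δ * c * Y' ^ (5 * n)) * Y' ^ n = δ * (c * Y' ^ (6 * n)) := by rw [h7]; ring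
        _ ≤ Z.ncard * (C' * Y' ^ n) := h6
        _ = (C' * Z.ncard) * Y' ^ n := by ring
    exact le_of_mul_le_mul_right h9 hYn
  have h9 : (0 : ℝ) < C' ^ 2 * 11 ^ (5 * n) := by positivity
  rw [div_mul_eq_mul_div, div_le_iff₀ h9]
  calc δ * c * {f ∈ AllN K (11 * Y') | f.coeff 2 = 0}.ncard
      ≤ δ * c * (C' * (11 * Y') ^ (5 * n)) := mul_le_mul_of_nonneg_left b5 (by positivity)
    _ = (C' * 11 ^ (5 * n)) * (δ * c * Y' ^ (5 * n)) := by rw [mul_pow]; ring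
    _ ≤ (C' * 11 ^ (5 * n)) * (C' * Z.ncard) := mul_le_mul_of_nonneg_left h8 (by positivity)
    _ = Z.ncard * (C' ^ 2 * 11 ^ (5 * n)) := by ring

end Pool.RZT
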